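import Pool.Agent.Work.MP_e299be_co.Game

namespace Pool.Agent.Results.MP_e299be_co.GameIndex

/-- The factor of length `n` of the infinite sequence `s` which starts at position `k`. -/
def factor {A : Type} (s : ℕ → A) (k n : ℕ) : List A := (List.range n).map (fun i => s (k + i))

/-- The word `w` matches the pattern `p` (a finite word over the variables `0, 1, 2, ...`) through
a block decomposition in which all blocks have length at least `m`: the variable `x` is replaced by
the block `B x`. -/
def Matches {A : Type} (m : ℕ) (p : List ℕ) (w : List A) : Prop :=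
  ∃ B : ℕ → List A, (∀ x ∈ p, m ≤ (B x).length) ∧ w = (p.map B).flatten

/-- The pattern `p` is avoidable: some infinite sequence over a finite alphabet has no factor
matching `p` (with nonempty blocks). -/
def Avoidable (p : List ℕ) : Prop :=
  ∃ (A : Type) (_ : Finite A) (s : ℕ → A), ∀ k n, ¬ Matches 1 p (factor s k n)

/-- Player 1 has a winning strategy in the `c`-ary sequence game for `p`. The strategy `σ` sends
the finite history (all earlier moves of both players) to the next symbol. Player 1 chooses the
symbols at the positions `0, 2, 4, ...`; for every infinite sequence `s` which can arise when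
Player 1 follows `σ`, no factor of `s` matches `p` with all blocks of length at least two. -/
def FirstWins (c : ℕ) (p : List ℕ) : Prop :=
  ∃ σ : List (Fin c) → Fin c, ∀ s : ℕ → Fin c, (∀ n, s (2 * n) = σ (factor s 0 (2 * n))) →
    ∀ k n, ¬ Matches 2 p (factor s k n)

/-- The game-avoidability index: the least `c ≥ 1` such that Player 1 has a winning strategy in
the `c`-ary sequence game, and `⊤` if there is no such `c`. -/
noncomputable def gameIndex (p : List ℕ) : ℕ∞ :=
  ⨅ (c : ℕ) (_ : 1 ≤ c ∧ FirstWins c p), (c : ℕ∞)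

open Pool.Agent.Work.MP_e299be_co in
/-- For every `N` there is an avoidable pattern for which Player 1 has no winning strategy in the
`c`-ary game for any `1 ≤ c ≤ N`. -/
theorem main (N : ℕ) : ∃ p : List ℕ, Avoidable p ∧ ∀ c, 1 ≤ c → c ≤ N → ¬ FirstWins c p := by
  classical
  let ι : Type := (c : Fin (N + 1)) × {T : Set (ET c) // Valid T}
  have : Fintype ι := Fintype.ofFinite ι
  let V : ι → Type := fun i => {a : Fin i.1 × Fin i.1 // InU i.2.1 a}
  let r : ∀ i, V i → V i → Prop := fun i a b => arc i.2.1 a.1 b.1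
  have hr : ∀ i, Locked (r i) := fun i => locked_arc i.2.2
  have hne : ∀ i, Nonempty (V i) := by
    intro i
    obtain ⟨⟨x, y, g⟩, h⟩ := i.2.2.ne
    exact ⟨⟨(x, y), Or.inr ⟨g, h⟩⟩⟩
  have hfin : ∀ i, Finite (V i) := fun i => inferInstanceAs (Finite {a // InU i.2.1 a})
  have hlock := locked_pi hr
  have hfinV : Finite (∀ i, V i) := Pi.finite
  have : Fintype (∀ i, V i) := Fintype.ofFinite _
  let L : List ((∀ i, V i) × (∀ i, V i)) :=
    ((Finset.univ : Finset ((∀ i, V i) × (∀ i, V i))).filter
      (fun x => ∀ i, r i (x.1 i) (x.2 i))).toList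
  have hLmem : ∀ a b, (a, b) ∈ L ↔ ∀ i, r i (a i) (b i) := by
    intro a b
    simp only [L, Finset.mem_toList, Finset.mem_filter, Finset.mem_univ, true_and]
  obtain ⟨f, hf⟩ := Countable.exists_injective_nat ((∀ i, V i) ⊕ ℕ)
  refine ⟨(pat 0 L).map f, ⟨ZMod 3 × ZMod 3, inferInstance, w, ?_⟩, ?_⟩
  · intro k n h
    have h' : Pool.Agent.Work.MP_e299be_co.Matches 1 ((pat 0 L).map f)
        (Pool.Agent.Work.MP_e299be_co.factor w k n) := h
    exact locked_avoid hlock (fun i => (hne i).some) L (fun a b hab => (hLmem a b).2 hab) 0 k n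
      h'.of_map
  · rintro c hc1 hcN ⟨σ, hσ⟩
    obtain ⟨T, hT, hT2⟩ := second_forces (by omega) σ
    let i0 : ι := ⟨⟨c, by omega⟩, ⟨T, hT⟩⟩
    obtain ⟨s, hs, k, n, hkn⟩ := hT2 (∀ i, V i) (fun a => (a i0).1) L (by
      intro a b hab
      exact (hLmem a b).1 hab i0)
    exact hσ s hs k n (hkn.map f hf)

/-- Q1 has a negative answer: the game-avoidability index is unbounded on avoidable patterns. -/
theorem result : ∀ N : ℕ, ∃ p : List ℕ, Avoidable p ∧ (N : ℕ∞) < gameIndex p := by
  intro N
  obtain ⟨p, h1, h2⟩ := main N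
  refine ⟨p, h1, ?_⟩
  have h3 : ((N + 1 : ℕ) : ℕ∞) ≤ gameIndex p := by
    unfold gameIndex
    refine le_iInf fun c => le_iInf fun hc => ?_
    have : ¬ c ≤ N := fun h => h2 c hc.1 h hc.2
    exact_mod_cast (by omega : N + 1 ≤ c)
  exact lt_of_lt_of_le (by exact_mod_cast Nat.lt_succ_self N) h3

end Pool.Agent.Results.MP_e299be_co.GameIndex
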